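import Mathlib
import Pool.Agent.R516.ZH

/-!
# Weak subconvexity for `L(f × g, 1/2 + i t_f)`, with the zeros taken into account

`L(f × g, s)` is a standard L-function of degree four (Ramakrishnan). At the point `1/2 + i t_f` its
analytic conductor has size `t_f^2`; for level-1 forms `f` and fixed `g`, uniformly in `f`,

`|L(f × g, 1/2 + i t_f)| ≤ B · t_f^{1/2} (log log (t_f + 16))^2 / (log (t_f + 16))^{1/2} · exp (- α N / 7)`

for every finite set of zeros in the box `α ≤ Re ρ ≤ 1 - α`, `|Im ρ - t_f| ≤ 1`, of total multiplicity `N`.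
-/

set_option autoImplicit false

namespace Pool.Agent.Results.MP_1f3421_nt.WeakWithZeros

open Pool.Agent.Results.MP_cf4097_nt.ZeroForm

/-- For all `θ < 1/2`, `A`, `C ≥ 1` and `0 < α ≤ 1/2` there is `B` such that for every standard
L-function of degree four with parameters `θ` and `A`, arithmetic conductor at most `C` and
archimedean parameters `μ j` within `C` of `-iT, -iT, iT, iT`, `T ≥ 1` (for `f × g`: `T = t_f`), and
for every finite set `S` of points with `α ≤ Re ρ ≤ 1 - α`, `|Im ρ - T| ≤ 1`: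
`|L(1/2 + iT)| ≤ B T^{1/2} (log log (T + 16))^2 / (log (T + 16))^{1/2} exp (- (α / 7) ∑ m(ρ))`. -/
theorem result (θ A C α : ℝ) (hθ : θ < 1 / 2) (hC : 1 ≤ C) (hα : 0 < α) (hα2 : α ≤ 1 / 2) :
    ∃ B : ℝ, ∀ D : StdL 4, D.IsStandard θ A → (D.q : ℝ) ≤ C → ∀ T : ℝ, 1 ≤ T →
      ‖D.μ 0 + T * Complex.I‖ ≤ C → ‖D.μ 1 + T * Complex.I‖ ≤ C →
      ‖D.μ 2 - T * Complex.I‖ ≤ C → ‖D.μ 3 - T * Complex.I‖ ≤ C →
      ∀ S : Finset ℂ, (∀ ρ ∈ S, α ≤ ρ.re ∧ ρ.re ≤ 1 - α ∧ |ρ.im - T| ≤ 1) →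
        ‖D.L (1 / 2 + T * Complex.I)‖ ≤ B * (T ^ (1 / 2 : ℝ) *
          Real.log (Real.log (T + 16)) ^ 2 / Real.sqrt (Real.log (T + 16))) *
          Real.exp (-(α / 7 * ∑ ρ ∈ S, (analyticOrderNatAt D.L ρ : ℝ))) := by
  have hE : 1 ≤ C * ((2 + C) ^ 2 * (4 + C) ^ 2) := by
    have e1 : 1 ≤ (2 + C) ^ 2 := one_le_pow₀ (by linarith)
    have e2 : 1 ≤ (4 + C) ^ 2 := one_le_pow₀ (by linarith)
    exact one_le_mul_of_one_le_of_one_le hC (one_le_mul_of_one_le_of_one_le e1 e2)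
  obtain ⟨B, hB⟩ := Pool.Agent.R516.ZH.drop 4 2 (by norm_num) θ A
    (C * ((2 + C) ^ 2 * (4 + C) ^ 2)) α hθ hE hα hα2
  refine ⟨B, fun D H hq T hT h0 h1 h2 h3 S hS => ?_⟩
  have hhalf : ‖(1 / 2 : ℂ)‖ ≤ 1 := by norm_num
  have hTI : ‖(2 * T * Complex.I : ℂ)‖ = 2 * T := by
    rw [norm_mul, Complex.norm_I, mul_one, norm_mul, Complex.norm_real,
      Real.norm_of_nonneg (by linarith)]
    norm_num
  have near : ∀ w : ℂ, ‖w + T * Complex.I‖ ≤ C → 1 + ‖1 / 2 + T * Complex.I + w‖ ≤ 2 + C := by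
    intro w hw
    have e : 1 / 2 + T * Complex.I + w = 1 / 2 + (w + T * Complex.I) := by ring
    rw [e]
    have := norm_add_le (1 / 2 : ℂ) (w + T * Complex.I)
    linarith
  have far : ∀ w : ℂ, ‖w - T * Complex.I‖ ≤ C →
      1 + ‖1 / 2 + T * Complex.I + w‖ ≤ (4 + C) * T := by
    intro w hw
    have e : 1 / 2 + T * Complex.I + w = 1 / 2 + (2 * T * Complex.I + (w - T * Complex.I)) := by ring
    rw [e]
    have e1 := norm_add_le (1 / 2 : ℂ) (2 * T * Complex.I + (w - T * Complex.I))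
    have e2 := norm_add_le (2 * T * Complex.I) (w - T * Complex.I)
    rw [hTI] at e2
    nlinarith
  have hQ : D.cond (1 / 2 + T * Complex.I) ≤ (C * ((2 + C) ^ 2 * (4 + C) ^ 2)) * T ^ 2 := by
    unfold StdL.cond
    rw [Fin.prod_univ_four]
    have a0 := near _ h0
    have a1 := near _ h1
    have a2 := far _ h2
    have a3 := far _ h3
    calc (D.q : ℝ) * ((1 + ‖1 / 2 + T * Complex.I + D.μ 0‖) * (1 + ‖1 / 2 + T * Complex.I + D.μ 1‖) *
          (1 + ‖1 / 2 + T * Complex.I + D.μ 2‖) * (1 + ‖1 / 2 + T * Complex.I + D.μ 3‖))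
        ≤ C * ((2 + C) * (2 + C) * ((4 + C) * T) * ((4 + C) * T)) := by gcongr
      _ = _ := by ring
  have key := hB D H T T hT hQ S hS
  have e1 : Pool.Agent.R516.ZH.size 2 T = T ^ (1 / 2 : ℝ) *
      Real.log (Real.log (T + 16)) ^ 2 / Real.sqrt (Real.log (T + 16)) := by
    unfold Pool.Agent.R516.ZH.size
    norm_num
  rw [e1] at key
  exact key

end Pool.Agent.Results.MP_1f3421_nt.WeakWithZeros
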